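import Pool.Agent.Helper286_MR.Main

/-!
# The minimum Ramsey number of graphs without isolated vertices

Let `f n` be the minimum of the Ramsey number `r(G)` over all graphs `G` with exactly `n` vertices and no
isolated vertex. We prove `f n = n + (1 + o(1)) log₂ n`, as conjectured by Burr and Erdős.

Outline of the proof of the upper bound (files in `Pool/Agent/Helper286_MR/`).

* The graph is a star forest with about `k = log₂ n` stars. Most stars (the main ones) have geometrically
  decreasing sizes with ratio slightly above `1/2`; a few (`o(k)`) special ones have sizes of order at most `k`.
* `Rob.lean`: in a graph in which every subset `X` of `W` has, outside any small set, a vertex adjacent to almost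
  half of `X` (`Dom`), the stars are found greedily. Centres used as leaves are replaced afterwards: removing `z`
  vertices from `W` costs only `z` of the surplus of each centre (`Rob.remove`). This is done in two rounds, so that
  nothing is lost (`two_phase`).
* `Game.lean`: by the minimax theorem one of the two colours has a probability distribution on the vertices without
  large atoms to which all vertices but `K = O(k)` have degree almost `1/2` in this colour.
* `Core.lean`: in this colour choose the main stars. It remains to cover all but `(1 + η) k` of the vertices of a set
  `S` with `K` vertices. A second game decides whether the special stars can do this. If they cannot, there is a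
  distribution on `S`, spread over at least `(1 + η) k` vertices, to which all vertices but the main centres and
  `o(k)` others have degree almost `1` in the other colour; then this colour contains the star forest, with all
  centres in `S`.
* `Sizes.lean`, `Num1.lean`, `Num2.lean`: the sizes and the constants.

The lower bound (due to Burr and Erdős) is in `Rand.lean` and `Lower.lean`: a graph without a vertex cover of size
`j + 1` is avoided by a clique on `n - 1` vertices and its complement, and a graph with a vertex cover of size at
most `(1 - ε) log₂ n` is avoided by a random colouring.
-/

set_option autoImplicit false

namespace Pool.Agent.Results.MP_624632_co.MinRamseyAsymptotic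

open Filter Topology
open scoped SimpleGraph

/-- Every colouring of the edges of the complete graph on `N` vertices with two colours (the first colour is
the graph `R`, the second one its complement) contains a monochromatic copy of `G`. -/
def Arrows (N : ℕ) {n : ℕ} (G : SimpleGraph (Fin n)) : Prop :=
  ∀ R : SimpleGraph (Fin N), G ⊑ R ∨ G ⊑ Rᶜ

/-- the Ramsey number `r(G)` -/
noncomputable def ramsey {n : ℕ} (G : SimpleGraph (Fin n)) : ℕ := sInf {N : ℕ | Arrows N G}

/-- no isolated vertex -/
def NoIsolated {n : ℕ} (G : SimpleGraph (Fin n)) : Prop := ∀ v : Fin n, ∃ w : Fin n, G.Adj v w

/-- the minimum of `r(G)` over all graphs `G` with `n` vertices and no isolated vertex -/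
noncomputable def f (n : ℕ) : ℕ := sInf {r : ℕ | ∃ G : SimpleGraph (Fin n), NoIsolated G ∧ ramsey G = r}

/-- `f(n) = n + (1 + o(1)) log₂ n` -/
theorem result : Tendsto (fun n : ℕ => ((f n : ℝ) - n) / Real.logb 2 n) atTop (𝓝 1) :=
  Pool.Agent.Helper286_MR.main

end Pool.Agent.Results.MP_624632_co.MinRamseyAsymptotic
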